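import Pool.Agent.W792.WA.Stm2
import Pool.Agent.W685.WA.Step

/-!
Adding one level, uniformly over a totally bounded set of laws (part WA-STEP2).
-/

namespace Pool.Agent.W930.WA.Step2

open MeasureTheory Filter Pool.Agent.W792.LL Pool.Agent.W792.WA Pool.Agent.W685.WA.Step
open scoped Topology

noncomputable section

/-! ### The distance of two functions -/

theorem cay_le (hCay : S_CAY) (x y : ℝ) : ‖cay x - cay y‖ ≤ 2 := by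
  have h := norm_sub_le (cay x) (cay y)
  have h1 := (hCay.1 x).le
  have h2 := (hCay.1 y).le
  linarith

theorem cd_int (hCay : S_CAY) (hm : Measurable cay) (X Y : MX) :
    Integrable (fun u => ‖cay (X.1 u) - cay (Y.1 u)‖ ^ 2)
      (volume.restrict (Set.Ioc (0 : ℝ) 1)) := by
  have := prob_Ioc
  refine Integrable.of_bound
    ((((hm.comp X.2).sub (hm.comp Y.2)).norm.pow_const 2).aestronglyMeasurable) 4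
    (ae_of_all _ fun u => ?_)
  have h := cay_le hCay (X.1 u) (Y.1 u)
  rw [norm_pow, norm_norm]
  nlinarith [norm_nonneg (cay (X.1 u) - cay (Y.1 u))]

theorem cd_comm (X Y : MX) : cd X Y = cd Y X := by
  unfold cd
  simp_rw [norm_sub_rev]

theorem cd_tri (hCay : S_CAY) (hm : Measurable cay) (X Y Z : MX) :
    cd X Z ≤ 2 * cd X Y + 2 * cd Y Z := by
  unfold cd
  rw [← integral_const_mul, ← integral_const_mul,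
    ← integral_add ((cd_int hCay hm X Y).const_mul 2) ((cd_int hCay hm Y Z).const_mul 2)]
  refine integral_mono (cd_int hCay hm X Z)
    (((cd_int hCay hm X Y).const_mul 2).add ((cd_int hCay hm Y Z).const_mul 2)) fun u => ?_
  show ‖cay (X.1 u) - cay (Z.1 u)‖ ^ 2 ≤ 2 * ‖cay (X.1 u) - cay (Y.1 u)‖ ^ 2
    + 2 * ‖cay (Y.1 u) - cay (Z.1 u)‖ ^ 2
  have h := norm_sub_le_norm_sub_add_norm_sub (cay (X.1 u)) (cay (Y.1 u)) (cay (Z.1 u))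
  have h0 := norm_nonneg (cay (X.1 u) - cay (Z.1 u))
  have h1 := norm_nonneg (cay (X.1 u) - cay (Y.1 u))
  have h2 := norm_nonneg (cay (Y.1 u) - cay (Z.1 u))
  nlinarith [sq_nonneg (‖cay (X.1 u) - cay (Y.1 u)‖ - ‖cay (Y.1 u) - cay (Z.1 u)‖)]

theorem reps (hCay : S_CAY) (hm : Measurable cay) {𝓧 : Set MX} (h : TB 𝓧) {τ : ℝ} (hτ : 0 < τ) :
    ∃ F : Set MX, F.Finite ∧ F ⊆ 𝓧 ∧ ∀ X ∈ 𝓧, ∃ Y ∈ F, cd X Y ≤ τ ^ 2 := by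
  classical
  obtain ⟨F, hF, hX⟩ := h (τ / 2) (half_pos hτ)
  have hch : ∀ Y : {Y : MX // Y ∈ F ∧ ∃ X ∈ 𝓧, cd X Y ≤ (τ / 2) ^ 2}, ∃ X, X ∈ 𝓧 ∧
      cd X Y.1 ≤ (τ / 2) ^ 2 := fun Y => Y.2.2
  choose g hg using hch
  have hfin : Finite {Y : MX // Y ∈ F ∧ ∃ X ∈ 𝓧, cd X Y ≤ (τ / 2) ^ 2} := by
    have : ({Y : MX | Y ∈ F ∧ ∃ X ∈ 𝓧, cd X Y ≤ (τ / 2) ^ 2} : Set MX).Finite :=
      hF.subset fun Y hY => hY.1
    exact this.to_subtype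
  refine ⟨Set.range g, Set.finite_range g, ?_, fun X hX' => ?_⟩
  · rintro _ ⟨Y, rfl⟩
    exact (hg Y).1
  · obtain ⟨Y, hY, hd⟩ := hX X hX'
    refine ⟨g ⟨Y, hY, X, hX', hd⟩, ⟨_, rfl⟩, ?_⟩
    have h1 := cd_tri hCay hm X Y (g ⟨Y, hY, X, hX', hd⟩)
    have h2 := (hg ⟨Y, hY, X, hX', hd⟩).2
    rw [cd_comm] at h2
    nlinarith

/-! ### Fixed points -/

section Fix

variable {ρ : Measure ℝ} [IsProbabilityMeasure ρ] {C D : ℝ} {d : ℕ}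
  {K : C(UnitAddTorus (Fin d), ℝ)} {z : ℂ}

theorem w_lt (hCX : S_CX) (hz : 0 < z.im) (hD : ∀ k, ‖(K k : ℂ) - z‖ ≤ D) (C : ℝ) :
    ∃ q : ℝ, 0 ≤ q ∧ q < 1 ∧ ∀ k, ∀ a ∈ Set.Icc (-C) C, ‖wz K z k a‖ ≤ q := by
  obtain ⟨q', hq'0, hq'1, hq'⟩ := hCX.2.2.1 C D z.im hz
  refine ⟨q', hq'0, hq'1, fun k a ha => ?_⟩
  refine hq' _ a (hD k) ?_ (abs_le.2 ha)
  rw [Complex.sub_im, Complex.ofReal_im]
  linarith

theorem fix_lt (hCX : S_CX) (hFIX : S_FIX) (hρ : ρ (Set.Icc (-C) C)ᶜ = 0) (hz : 0 < z.im)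
    (hD : ∀ k, ‖(K k : ℂ) - z‖ ≤ D) {ν : Measure ℝ} [IsProbabilityMeasure ν] (hv : 0 < vr ν) :
    (∃ s, IsFix ν ρ (wz K z) s) ∧ ∀ s, IsFix ν ρ (wz K z) s → ‖s‖ < 1 := by
  obtain ⟨q', hq'0, hq'1, hwq⟩ := w_lt hCX hz hD C
  have hwc := hCX.2.2.2 d K z hz.le
  have hF := hFIX ν d ρ C q' (wz K z) hv hρ hwc hq'0 hq'1 hwq
  refine ⟨hF.1.exists, fun s hs => ?_⟩
  refine (ContinuousMap.norm_lt_iff _ one_pos).2 fun k => ?_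
  have h1 := hF.2.1 s hs k
  have h2 : 0 < (1 - q' ^ 2) * vr ν / 4 := by
    have : 0 < 1 - q' ^ 2 := by nlinarith
    positivity
  by_contra h3
  push Not at h3
  nlinarith

theorem UU_norm (hCX : S_CX) (hUUC : S_UUC) (hρ : ρ (Set.Icc (-C) C)ᶜ = 0) (hz : 0 < z.im)
    (hD : ∀ k, ‖(K k : ℂ) - z‖ ≤ D) {σ γ q : ℝ} (hσ : 0 < σ)
    (hgain : ∀ x s₁ s₂ : ℂ, ‖x‖ ≤ D → x.im ≤ 0 → ‖s₁‖ < 1 → ‖s₂‖ ≤ 1 - σ →
      ‖Us ρ (cayx x) s₁ - Us ρ (cayx x) s₂‖ ^ 2 * ((1 - ‖s₁‖ ^ 2) * (1 - ‖s₂‖ ^ 2))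
        ≤ (1 - γ) * ‖s₁ - s₂‖ ^ 2
          * ((1 - ‖Us ρ (cayx x) s₁‖ ^ 2) * (1 - ‖Us ρ (cayx x) s₂‖ ^ 2)) ∧
      ‖Us ρ (cayx x) s₂‖ ^ 2 ≤ 1 - γ)
    (hq0 : 0 ≤ q) (hq : Real.sqrt (1 - γ) ≤ q) {s : C(UnitAddTorus (Fin d), ℂ)}
    (hs : ‖s‖ ≤ 1 - σ) : ‖UU ρ (wz K z) s‖ ≤ q := by
  refine (ContinuousMap.norm_le _ hq0).2 fun k => ?_
  rw [UU_apply hCX hUUC ρ hρ _ hz.le (by linarith)]
  have h := (hgain ((K k : ℂ) - z) 0 (s k) (hD k) (im_le hz.le _) (by simp)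
    ((s.norm_coe_le_norm k).trans hs)).2
  exact (Real.le_sqrt_of_sq_le h).trans hq

theorem near (hCX : S_CX) (hUUC : S_UUC) (hFIX : S_FIX) (hSTAB : S_STAB)
    (hρ : ρ (Set.Icc (-C) C)ᶜ = 0) (hz : 0 < z.im)
    (hD : ∀ k, ‖(K k : ℂ) - z‖ ≤ D) {σ γ q L : ℝ} (hσ : 0 < σ) (hγ0 : 0 < γ) (hγ1 : γ < 1)
    (hgain : ∀ x s₁ s₂ : ℂ, ‖x‖ ≤ D → x.im ≤ 0 → ‖s₁‖ < 1 → ‖s₂‖ ≤ 1 - σ →
      ‖Us ρ (cayx x) s₁ - Us ρ (cayx x) s₂‖ ^ 2 * ((1 - ‖s₁‖ ^ 2) * (1 - ‖s₂‖ ^ 2))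
        ≤ (1 - γ) * ‖s₁ - s₂‖ ^ 2
          * ((1 - ‖Us ρ (cayx x) s₁‖ ^ 2) * (1 - ‖Us ρ (cayx x) s₂‖ ^ 2)) ∧
      ‖Us ρ (cayx x) s₂‖ ^ 2 ≤ 1 - γ)
    (hq0 : 0 ≤ q) (hq : Real.sqrt (1 - γ) ≤ q)
    (hL : ∀ (X Y : MX) (τ : ℝ), 0 ≤ τ → cd X Y ≤ τ ^ 2 →
      ∀ (d : ℕ) (m : C(UnitAddTorus (Fin d), ℂ)), ‖m‖ ≤ q →
        ‖psi (qlaw X) m - psi (qlaw Y) m‖ ≤ L * τ)
    {X Y : MX} {τ : ℝ} (hτ : 0 ≤ τ) (hXY : cd X Y ≤ τ ^ 2) (hvX : 0 < vr (qlaw X))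
    {s t : C(UnitAddTorus (Fin d), ℂ)} (hs : IsFix (qlaw X) ρ (wz K z) s)
    (ht : IsFix (qlaw Y) ρ (wz K z) t) (htn : ‖t‖ ≤ 1 - σ) {θ : ℝ} (hθ0 : 0 < θ) (hθ1 : θ ≤ 1)
    (hsm : 28 * (L * τ) ≤ σ * γ * θ ^ 2) : ‖s - t‖ ≤ θ := by
  obtain ⟨q', hq'0, hq'1, hwq⟩ := w_lt hCX hz hD C
  have hwc := hCX.2.2.2 d K z hz.le
  have hs1 : ‖s‖ < 1 := (fix_lt hCX hFIX hρ hz hD hvX).2 s hs
  have hUt : ‖UU ρ (wz K z) t‖ ≤ q := UU_norm hCX hUUC hρ hz hD hσ hgain hq0 hq htn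
  have hp : ‖psi (qlaw X) (UU ρ (wz K z) t) - t‖ ≤ L * τ := by
    have h := hL X Y τ hτ hXY d _ hUt
    rwa [ht.2] at h
  have hle : 28 * (L * τ) ≤ σ * γ := by
    refine hsm.trans ?_
    have h1 : θ ^ 2 ≤ 1 := pow_le_one₀ hθ0.le hθ1
    have h2 : 0 ≤ σ * γ := by positivity
    nlinarith
  have hst := hSTAB (qlaw X) d ρ C q' σ γ (L * τ) (wz K z) s t hvX hρ hwc hq'0 hq'1 hwq hσ hγ0 hγ1
    hs htn hp hle (by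
      intro k
      rw [UU_apply hCX hUUC ρ hρ _ hz.le hs1, UU_apply hCX hUUC ρ hρ _ hz.le (by linarith)]
      exact (hgain _ (s k) (t k) (hD k) (im_le hz.le _)
        ((s.norm_coe_le_norm k).trans_lt hs1) ((t.norm_coe_le_norm k).trans htn)).1)
  have h1 : 28 * (L * τ) / (σ * γ) ≤ θ ^ 2 := by
    rw [div_le_iff₀ (by positivity)]
    linarith
  exact (pow_le_pow_iff_left₀ (norm_nonneg _) hθ0.le two_ne_zero).1 (hst.trans h1)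

end Fix

theorem norm_K_le {d : ℕ} {l : ℝ} (hl : 0 < l) (K : C(UnitAddTorus (Fin d), ℝ)) {z : ℂ}
    (hz : z ∈ Zs d) (k : UnitAddTorus (Fin d)) : ‖(K k : ℂ) - z‖ ≤ ‖K‖ + l + 4 * d + 1 := by
  obtain ⟨h1, h2, h3, h4⟩ := hz
  have hzn := Complex.norm_le_abs_re_add_abs_im z
  rw [abs_of_nonneg h1, abs_of_pos h3] at hzn
  have h5 : ‖(K k : ℂ)‖ ≤ ‖K‖ := by
    rw [Complex.norm_real]
    exact K.norm_coe_le_norm k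
  have := norm_sub_le (K k : ℂ) z
  linarith

theorem main : S_STEP → S_SC1 → S_SCL → S_GAIN → S_PSI → S_UUC → S_FIX → S_STAB → S_CX → S_PSIW →
    S_ZFW → S_STEP2 := by
  intro hSTEP _hSC1 hSCL hGAIN _hPSI hUUC hFIX hSTAB hCX hPSIW hZFW d ψ ρ _ C σ l K 𝓧 hd hψ hvr hTB
    hρ htwo hl hσ hbnd e he
  have hO : S_OPR := Pool.Agent.W918.LL.main
  have hCay : S_CAY := Pool.Agent.W335.LLCay.main
  have hZ : S_ZF := Pool.Agent.W762.LL.main hO Pool.Agent.W792.LL.DiaP.main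
  have hM : S_MZ := Pool.Agent.W978.LL.main hO Pool.Agent.W792.LL.DiaP.main hZ hCay
  have hcm : Measurable cay := by
    unfold cay
    fun_prop
  have := prob_lev ψ l
  have hρ0s : ((lev ψ l).conv ρ) (Set.Icc (-(C + l)) (C + l))ᶜ = 0 := conv_supp hψ hl hρ
  have hσ4 : 0 < σ / 4 := by positivity
  obtain ⟨γ₀, hγ00, hγ01, hgain₀⟩ := hGAIN ((lev ψ l).conv ρ) (C + l) (‖K‖ + l + 4 * d + 1) (σ / 4)
    hρ0s (conv_two hψ hl) hσ4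
  obtain ⟨γ₁, hγ10, hγ11, hgain₁⟩ := hGAIN ρ C (‖K‖ + l + 4 * d + 1) (σ / 4) hρ htwo hσ4
  obtain ⟨q, hq⟩ : ∃ q, q = max (Real.sqrt (1 - γ₀)) (Real.sqrt (1 - γ₁)) := ⟨_, rfl⟩
  have hqs₀ : Real.sqrt (1 - γ₀) ≤ q := hq ▸ le_max_left _ _
  have hqs₁ : Real.sqrt (1 - γ₁) ≤ q := hq ▸ le_max_right _ _
  have hq0 : 0 ≤ q := (Real.sqrt_nonneg _).trans hqs₀
  have hq1 : q < 1 := by
    rw [hq]
    refine max_lt ?_ ?_ <;>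
    · rw [Real.sqrt_lt' one_pos]
      linarith
  obtain ⟨Lp, hLp0, hLp⟩ := hPSIW q hq0 hq1
  obtain ⟨Lz, hLz0, hLz⟩ := hZFW q hq0 hq1
  obtain ⟨A, hA⟩ : ∃ A, A = 8 / (σ / 4) ^ 2 := ⟨_, rfl⟩
  have hApos : 0 < A := by rw [hA]; positivity
  obtain ⟨B, hB⟩ : ∃ B, B = 1 / (1 - q) ^ 2 := ⟨_, rfl⟩
  have h1q : 0 < 1 - q := by linarith
  have hBpos : 0 < B := by rw [hB]; positivity
  have hdiv : ∀ a b : ℝ, 0 ≤ a → a ≤ b → a / (1 - q) ^ 2 ≤ b * B := by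
    intro a b _ hab
    rw [hB, mul_one_div]
    gcongr
  -- constants
  obtain ⟨θ, hθ⟩ : ∃ θ, θ = min (min 1 (e / 8)) (min (σ / 4) (e / (8 * A * B))) := ⟨_, rfl⟩
  have hθ0 : 0 < θ := by
    rw [hθ]
    exact lt_min (lt_min one_pos (by positivity)) (lt_min hσ4 (by positivity))
  have hθ1 : θ ≤ 1 := hθ ▸ (min_le_left _ _).trans (min_le_left _ _)
  have hθe : θ ≤ e / 8 := hθ ▸ (min_le_left _ _).trans (min_le_right _ _)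
  have hθσ : θ ≤ σ / 4 := hθ ▸ (min_le_right _ _).trans (min_le_left _ _)
  have hθB : A * θ * B ≤ e / 8 := by
    have h : θ ≤ e / (8 * A * B) := hθ ▸ (min_le_right _ _).trans (min_le_right _ _)
    rw [le_div_iff₀ (by positivity)] at h
    linarith
  obtain ⟨τ, hτdef⟩ : ∃ τ, τ = min (min (σ / 4 * γ₀ * θ ^ 2 / (28 * Lp))
    (σ / 4 * γ₁ * θ ^ 2 / (28 * Lp))) (e / (8 * Lz)) := ⟨_, rfl⟩
  have hτ0 : 0 < τ := by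
    rw [hτdef]
    exact lt_min (lt_min (by positivity) (by positivity)) (by positivity)
  have hτ₀ : 28 * (Lp * τ) ≤ σ / 4 * γ₀ * θ ^ 2 := by
    have h : τ ≤ σ / 4 * γ₀ * θ ^ 2 / (28 * Lp) :=
      hτdef ▸ (min_le_left _ _).trans (min_le_left _ _)
    rw [le_div_iff₀ (by positivity)] at h
    linarith
  have hτ₁ : 28 * (Lp * τ) ≤ σ / 4 * γ₁ * θ ^ 2 := by
    have h : τ ≤ σ / 4 * γ₁ * θ ^ 2 / (28 * Lp) :=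
      hτdef ▸ (min_le_left _ _).trans (min_le_right _ _)
    rw [le_div_iff₀ (by positivity)] at h
    linarith
  have hτz : Lz * τ ≤ e / 8 := by
    have h : τ ≤ e / (8 * Lz) := hτdef ▸ min_le_right _ _
    rw [le_div_iff₀ (by positivity)] at h
    linarith
  obtain ⟨e1, he1⟩ : ∃ e1, e1 = min (e / 8) (σ / 4) := ⟨_, rfl⟩
  have he10 : 0 < e1 := by
    rw [he1]
    exact lt_min (by positivity) hσ4
  have he1e : e1 ≤ e / 8 := he1 ▸ min_le_left _ _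
  have he1σ : e1 ≤ σ / 4 := he1 ▸ min_le_right _ _
  -- the net
  obtain ⟨F, hF, hFX, hnet⟩ := reps hCay hcm hTB hτ0
  have hev : ∀ Y ∈ F, ∀ᶠ M : ℕ in atTop, ∀ z ∈ Zs d, ∀ s s',
      IsFix (qlaw Y) ((lev ψ l).conv ρ) (wz K z) s → IsFix (qlaw Y) ρ (wz (addL ψ K l M) z) s' →
      ‖s - s'‖ ≤ e1 ∧ ∫ v, ‖Zf (UU ((lev ψ l).conv ρ) (wz K z) s) (fun x => cay (v x))
        - Zf (UU ρ (wz (addL ψ K l M) z) s') (fun x => cay (v x))‖ ∂(Pn (qlaw Y) (Fin d → ℤ))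
          ≤ e1 := by
    intro Y hY
    obtain ⟨M₀, hM₀⟩ := hSTEP (qlaw Y) d ψ ρ C σ l K hd hψ (hvr Y (hFX hY)) hρ htwo hl hσ
      (hbnd Y (hFX hY)) e1 he10
    filter_upwards [eventually_ge_atTop M₀] with M hM
    exact hM₀ M hM
  obtain ⟨M₀, hM₀⟩ := eventually_atTop.1 ((eventually_all_finite hF).2 hev)
  refine ⟨M₀, fun M hMM X hX z hz s s' hs hs' => ?_⟩
  obtain ⟨Y, hY, hXY⟩ := hnet X hX
  have hzi := hz.2.2.1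
  have hD₀ : ∀ k, ‖(K k : ℂ) - z‖ ≤ ‖K‖ + l + 4 * d + 1 := norm_K_le hl K hz
  have hD₁ : ∀ k, ‖(addL ψ K l M k : ℂ) - z‖ ≤ ‖K‖ + l + 4 * d + 1 :=
    fun k => norm_x_le hψ hl K hz k _
  obtain ⟨t, ht⟩ := (fix_lt hCX hFIX hρ0s hzi hD₀ (hvr Y (hFX hY))).1
  obtain ⟨t', ht'⟩ := (fix_lt hCX hFIX hρ hzi hD₁ (hvr Y (hFX hY))).1
  obtain ⟨htt, hZY⟩ := hM₀ M hMM Y hY z hz t t' ht ht'
  have hsn : ‖s‖ ≤ 1 - σ := hbnd X hX z hz s hs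
  have htn : ‖t‖ ≤ 1 - σ := hbnd Y (hFX hY) z hz t ht
  have ht'n : ‖t'‖ ≤ 1 - 3 * σ / 4 := by
    have h1 := norm_add_le (t' - t) t
    rw [sub_add_cancel, norm_sub_rev] at h1
    linarith
  have hst : ‖s - t‖ ≤ θ := near hCX hUUC hFIX hSTAB hρ0s hzi hD₀ hσ4 hγ00 hγ01 hgain₀ hq0 hqs₀
    hLp hτ0.le hXY (hvr X hX) hs ht (by linarith) hθ0 hθ1 hτ₀
  have hst' : ‖s' - t'‖ ≤ θ := near hCX hUUC hFIX hSTAB hρ hzi hD₁ hσ4 hγ10 hγ11 hgain₁ hq0 hqs₁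
    hLp hτ0.le hXY (hvr X hX) hs' ht' (by linarith) hθ0 hθ1 hτ₁
  have hs'n : ‖s'‖ ≤ 1 - σ / 2 := by
    have h1 := norm_add_le (s' - t') t'
    rw [sub_add_cancel] at h1
    linarith
  have hss : ‖s - s'‖ ≤ e := by
    have h1 := norm_sub_le_norm_sub_add_norm_sub s t s'
    have h2 := norm_sub_le_norm_sub_add_norm_sub t t' s'
    rw [norm_sub_rev t' s'] at h2
    linarith
  have hUs : ‖UU ((lev ψ l).conv ρ) (wz K z) s‖ ≤ q :=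
    UU_norm hCX hUUC hρ0s hzi hD₀ hσ4 hgain₀ hq0 hqs₀ (by linarith)
  have hUt : ‖UU ((lev ψ l).conv ρ) (wz K z) t‖ ≤ q :=
    UU_norm hCX hUUC hρ0s hzi hD₀ hσ4 hgain₀ hq0 hqs₀ (by linarith)
  have hUs' : ‖UU ρ (wz (addL ψ K l M) z) s'‖ ≤ q :=
    UU_norm hCX hUUC hρ hzi hD₁ hσ4 hgain₁ hq0 hqs₁ (by linarith)
  have hUt' : ‖UU ρ (wz (addL ψ K l M) z) t'‖ ≤ q :=
    UU_norm hCX hUUC hρ hzi hD₁ hσ4 hgain₁ hq0 hqs₁ (by linarith)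
  have hUU : ‖UU ((lev ψ l).conv ρ) (wz K z) s - UU ((lev ψ l).conv ρ) (wz K z) t‖ ≤ A * θ := by
    refine (UU_lip hSCL hCX hUUC ((lev ψ l).conv ρ) hρ0s _ hσ4 hzi.le hzi.le
      (show ‖s‖ ≤ 1 - σ / 4 by linarith) (show ‖t‖ ≤ 1 - σ / 4 by linarith)).trans ?_
    rw [← hA, sub_self, norm_zero, mul_zero, zero_add]
    exact mul_le_mul_of_nonneg_left hst hApos.le
  have hUU' : ‖UU ρ (wz (addL ψ K l M) z) t' - UU ρ (wz (addL ψ K l M) z) s'‖ ≤ A * θ := by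
    refine (UU_lip hSCL hCX hUUC ρ hρ _ hσ4 hzi.le hzi.le
      (show ‖t'‖ ≤ 1 - σ / 4 by linarith) (show ‖s'‖ ≤ 1 - σ / 4 by linarith)).trans ?_
    rw [← hA, sub_self, norm_zero, mul_zero, zero_add, norm_sub_rev]
    exact mul_le_mul_of_nonneg_left hst' hApos.le
  refine ⟨hss, ?_⟩
  have h1 := zf_tri hZ hM hCay (qlaw X) hq0 hq1 hUs hUt hUs'
  have h2 := zf_tri hZ hM hCay (qlaw X) hq0 hq1 hUt hUt' hUs'
  have h3 := (zf_int hZ hM hCay (qlaw X) hq0 hq1 hUs hUt).2.trans (hdiv _ _ (norm_nonneg _) hUU)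
  have h4 := (zf_int hZ hM hCay (qlaw X) hq0 hq1 hUt' hUs').2.trans
    (hdiv _ _ (norm_nonneg _) hUU')
  have h5 := hLz X Y τ hτ0.le hXY d _ _ hUt hUt'
  linarith

end

end Pool.Agent.W930.WA.Step2
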